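import Pool.Agent.Lib_helper51.PQ.R5b
import Pool.Agent.Lib_helper72.PQ.R1

/-! # Project PQ, block R5: the ambiguous class `τ` of `ℤ[√-pq]` -/

set_option autoImplicit false

namespace Pool.Agent.PQ

open Finset Pool.Agent.TM32

theorem tau_two (p q : ℕ) [NeZero (p * q)] (h : Pair p q) (C : ClassGroup (Od (p * q)))
    (hC : C ^ 2 = 1) : C = 1 ∨ C = tauC p q h := by
  obtain ⟨m, r, hR⟩ := rp_exists (p * q) C
  exact tau_two_aux p q h C hC m r hR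

/-- R5 : the ambiguous class `τ = [𝔮] = [𝔭]` of `n = p q`, `𝔮 = (q, √-n)`.
(a) it is not `1`, its square is `1`; (b) no other class has square `1` (case 1 of `R4`: `m = s² + n t²` gives `C = 1`,
case 2: `m = p s² + q t²` gives `C = τ`); (c) ideals in `τ` have norm `q x² + p y²` (`I conj 𝔮` is principal);
(d) if `C² = τ` then `I² 𝔭` is principal and primitive. -/
theorem tau (p q : ℕ) [NeZero (p * q)] (hpq : Pair p q) : ∃ τ : ClassGroup (Od (p * q)),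
    τ ≠ 1 ∧ τ ^ 2 = 1 ∧ (∀ C, C ^ 2 = 1 → C = 1 ∨ C = τ) ∧
    (∀ (m : ℕ) (r : ℤ), Rp (p * q) τ m r → ∃ x y : ℤ, (m : ℤ) = q * x ^ 2 + p * y ^ 2) ∧
    (∀ (C : ClassGroup (Od (p * q))) (m : ℕ) (r : ℤ), Rp (p * q) C m r → C ^ 2 = τ →
      ∃ X Y : ℤ, IsCoprime X Y ∧ (m : ℤ) ^ 2 = p * X ^ 2 + q * Y ^ 2) :=
  ⟨tauC p q hpq, tauC_ne_one hpq, tauC_sq hpq, tau_two p q hpq, tauC_norm hpq,
    fun C m r hR hC => tauC_sqrt hpq C m r hR hC⟩

end Pool.Agent.PQ
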