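import Pool.Agent.Lib_helper51.PQ.R5def

/-! # Project PQ, block R5a: the ambiguous class `τ` is not trivial; norms in `τ` and in its square roots -/

set_option autoImplicit false

namespace Pool.Agent.PQ

open Finset Pool.Agent.TM32

/-! ### conjugate ideals -/

theorem R5_star_surj (n : ℕ) : Function.Surjective (starRingEnd (Od n)) := fun z =>
  ⟨starRingEnd (Od n) z, by rw [starRingEnd_self_apply]⟩

theorem R5_mem_conj {n : ℕ} {I : Ideal (Od n)} {w : Od n} :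
    w ∈ I.map (starRingEnd (Od n)) ↔ ∃ z ∈ I, starRingEnd (Od n) z = w :=
  Ideal.mem_map_iff_of_surjective _ (R5_star_surj n)

theorem R5_star (n : ℕ) (z : Od n) : starRingEnd (Od n) z = ⟨z.re, -z.im⟩ := rfl

theorem R5_cop_r {n m : ℕ} {r : ℤ} (hc : Nat.Coprime m (2 * n)) (hr : (m : ℤ) ∣ r ^ 2 + n) :
    IsCoprime (m : ℤ) (2 * r) := by
  have h1 : IsCoprime (m : ℤ) (2 * n) := by
    have := Nat.isCoprime_iff_coprime.2 hc
    push_cast at this
    exact this
  have h2 : IsCoprime (m : ℤ) 2 := h1.of_mul_right_left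
  have h3 : IsCoprime (m : ℤ) n := h1.of_mul_right_right
  obtain ⟨k, hk⟩ := hr
  have h4 : IsCoprime (m : ℤ) (r ^ 2) := by
    have h5 : r ^ 2 = -(n : ℤ) + m * k := by linarith
    rw [h5]
    exact (IsCoprime.add_mul_left_right_iff).2 h3.neg_right
  exact h2.mul_right (IsCoprime.pow_right_iff (by norm_num) |>.1 h4)

theorem R5_conj_mul {n m : ℕ} {r : ℤ} (hc : Nat.Coprime m (2 * n)) (hr : (m : ℤ) ∣ r ^ 2 + n)
    {I : Ideal (Od n)} (hI : ∀ z : Od n, z ∈ I ↔ (m : ℤ) ∣ z.re + r * z.im) :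
    I * I.map (starRingEnd (Od n)) = Ideal.span {((m : ℤ) : Od n)} := by
  obtain ⟨k, hk⟩ := hr
  apply le_antisymm
  · rw [Ideal.mul_le]
    intro z hz w hw
    obtain ⟨w', hw', rfl⟩ := R5_mem_conj.1 hw
    obtain ⟨a, ha⟩ := (hI z).1 hz
    obtain ⟨b, hb⟩ := (hI w').1 hw'
    rw [Ideal.mem_span_singleton, R5_star]
    refine ⟨⟨m * a * b - r * a * w'.im - r * b * z.im + k * z.im * w'.im,
      z.im * b - a * w'.im⟩, ?_⟩
    have ha' : z.re = m * a - r * z.im := by linarith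
    have hb' : w'.re = m * b - r * w'.im := by linarith
    apply Zsqrtd.ext
    · simp only [Zsqrtd.re_mul, Zsqrtd.re_intCast, Zsqrtd.im_intCast]
      rw [ha', hb']
      linear_combination (z.im * w'.im) * hk
    · simp only [Zsqrtd.im_mul, Zsqrtd.re_intCast, Zsqrtd.im_intCast]
      rw [ha', hb']
      ring
  · rw [Ideal.span_singleton_le_iff_mem]
    obtain ⟨a, b, hab⟩ := R5_cop_r hc ⟨k, hk⟩
    have hm : ((m : ℤ) : Od n) ∈ I := by
      rw [hI]
      simp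
    have hm' : ((m : ℤ) : Od n) ∈ I.map (starRingEnd (Od n)) := by
      rw [R5_mem_conj]
      refine ⟨_, hm, ?_⟩
      rw [R5_star]
      apply Zsqrtd.ext <;> simp
    have he : (⟨-r, 1⟩ : Od n) ∈ I := by
      rw [hI]
      simp
    have he' : (⟨-r, -1⟩ : Od n) ∈ I.map (starRingEnd (Od n)) := by
      rw [R5_mem_conj]
      exact ⟨_, he, rfl⟩
    have h1 := Ideal.mul_mem_mul hm hm'
    have h2 := Ideal.mul_mem_mul hm he'
    have h3 := Ideal.mul_mem_mul he hm'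
    have h4 : ((m : ℤ) : Od n) = ((a : ℤ) : Od n) * (((m : ℤ) : Od n) * ((m : ℤ) : Od n)) +
        (-((b : ℤ) : Od n)) * (((m : ℤ) : Od n) * ⟨-r, -1⟩ + ⟨-r, 1⟩ * ((m : ℤ) : Od n)) := by
      apply Zsqrtd.ext
      · simp only [Zsqrtd.re_add, Zsqrtd.re_mul, Zsqrtd.im_mul, Zsqrtd.re_intCast,
          Zsqrtd.im_intCast, Zsqrtd.re_neg, Zsqrtd.im_neg, Zsqrtd.im_add]
        linear_combination (-(m : ℤ)) * hab
      · simp only [Zsqrtd.re_add, Zsqrtd.re_mul, Zsqrtd.im_mul, Zsqrtd.re_intCast,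
          Zsqrtd.im_intCast, Zsqrtd.re_neg, Zsqrtd.im_neg, Zsqrtd.im_add]
        ring
    rw [h4]
    exact Ideal.add_mem _ (Ideal.mul_mem_left _ _ h1) (Ideal.mul_mem_left _ _
      (Ideal.add_mem _ h2 h3))

theorem R5_amb_conj {n : ℕ} {d : ℤ} (hd : d ∣ (n : ℤ)) :
    (amb n d hd).map (starRingEnd (Od n)) = amb n d hd := by
  ext w
  rw [R5_mem_conj]
  constructor
  · rintro ⟨z, hz, rfl⟩
    exact hz
  · intro hw
    exact ⟨starRingEnd (Od n) w, hw, starRingEnd_self_apply w⟩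

theorem Ip_mul_Ip {p q : ℕ} (h : Pair p q) : Ip p q * Ip p q = Ideal.span {((p : ℤ) : Od (p * q))} := by
  apply le_antisymm
  · rw [Ideal.mul_le]
    intro z hz w hw
    obtain ⟨a, ha⟩ := mem_Ip.1 hz
    obtain ⟨b, hb⟩ := mem_Ip.1 hw
    rw [Ideal.mem_span_singleton]
    refine ⟨⟨p * a * b - q * z.im * w.im, a * w.im + z.im * b⟩, ?_⟩
    apply Zsqrtd.ext
    · simp [ha, hb]
      ring
    · simp [ha, hb]
      ring
  · rw [Ideal.span_singleton_le_iff_mem]
    obtain ⟨a, b, hab⟩ := h.coprime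
    have h1 : ((p : ℤ) : Od (p * q)) * ((p : ℤ) : Od (p * q)) ∈ Ip p q * Ip p q := by
      refine Ideal.mul_mem_mul ?_ ?_
      · rw [mem_Ip]; simp
      · rw [mem_Ip]; simp
    have h2 : (Zsqrtd.sqrtd : Od (p * q)) * (Zsqrtd.sqrtd : Od (p * q)) ∈ Ip p q * Ip p q := by
      refine Ideal.mul_mem_mul ?_ ?_
      · rw [mem_Ip]; simp
      · rw [mem_Ip]; simp
    have h5 : (Zsqrtd.sqrtd : Od (p * q)) * (Zsqrtd.sqrtd : Od (p * q)) =
        -(((p : ℤ) : Od (p * q)) * ((q : ℤ) : Od (p * q))) := by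
      apply Zsqrtd.ext
      · simp
      · simp
    have h3 : ((p : ℤ) : Od (p * q)) = ((a : ℤ) : Od (p * q)) *
        (((p : ℤ) : Od (p * q)) * ((p : ℤ) : Od (p * q))) + (-((b : ℤ) : Od (p * q))) *
        ((Zsqrtd.sqrtd : Od (p * q)) * (Zsqrtd.sqrtd : Od (p * q))) := by
      have h4 : ((a : ℤ) : Od (p * q)) * ((p : ℤ) : Od (p * q)) +
          ((b : ℤ) : Od (p * q)) * ((q : ℤ) : Od (p * q)) = 1 := by
        rw [← Int.cast_mul, ← Int.cast_mul, ← Int.cast_add, hab, Int.cast_one]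
      rw [h5]
      linear_combination -((p : ℤ) : Od (p * q)) * h4
    rw [h3]
    exact Ideal.add_mem _ (Ideal.mul_mem_left _ _ h1) (Ideal.mul_mem_left _ _ h2)

/-- the norm of a generator -/
theorem R5_norm {n : ℕ} {g : Od n} {t : ℤ} (ht : 0 ≤ t)
    (h : Ideal.span {g} * (Ideal.span {g}).map (starRingEnd (Od n)) =
      Ideal.span {((t : ℤ) : Od n)}) : g.norm = t := by
  rw [Ideal.map_span, Set.image_singleton, Ideal.span_singleton_mul_span_singleton] at h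
  have h1 : g * starRingEnd (Od n) g = ((g.norm : ℤ) : Od n) := (Zsqrtd.norm_eq_mul_conj g).symm
  rw [h1] at h
  have h2 : ((g.norm : ℤ) : Od n) ∣ ((t : ℤ) : Od n) := by
    rw [← Ideal.span_singleton_le_span_singleton, h]
  have h3 : ((t : ℤ) : Od n) ∣ ((g.norm : ℤ) : Od n) := by
    rw [← Ideal.span_singleton_le_span_singleton, h]
  rw [Zsqrtd.intCast_dvd_intCast] at h2 h3
  have h4 : 0 ≤ g.norm := by
    rw [od_norm]
    positivity
  exact Int.dvd_antisymm h4 ht h2 h3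

theorem tauC_ne_one {p q : ℕ} [NeZero (p * q)] (h : Pair p q) : tauC p q h ≠ 1 := by
  intro h1
  obtain ⟨g, hg0, hg⟩ := R5_principal (Iq p q) (inv_Iq h) h1
  have h2 : Iq p q * (Iq p q).map (starRingEnd (Od (p * q))) =
      Ideal.span {((q : ℤ) : Od (p * q))} := by
    have : (Iq p q).map (starRingEnd (Od (p * q))) = Iq p q := R5_amb_conj _
    rw [this, Iq_mul_Iq h]
  rw [hg] at h2
  have h3 := R5_norm (by positivity) h2
  rw [od_norm] at h3
  obtain ⟨hp, hq, _⟩ := h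
  have hp2 : (2 : ℤ) ≤ p := by exact_mod_cast hp.two_le
  have hq2 : (2 : ℤ) ≤ q := by exact_mod_cast hq.two_le
  push_cast at h3
  have h4 : g.im = 0 := by
    by_contra hne
    have h5 : 1 ≤ g.im ^ 2 := by
      have := Int.one_le_abs hne
      nlinarith [sq_abs g.im]
    nlinarith [sq_nonneg g.re, mul_le_mul_of_nonneg_left h5 (by positivity : (0 : ℤ) ≤ p * q)]
  rw [h4] at h3
  have h6 : g.re ^ 2 = q := by linarith
  have h7 : (q : ℤ) ∣ g.re := Int.Prime.dvd_pow' hq ⟨1, by rw [h6]; ring⟩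
  obtain ⟨s, hs⟩ := h7
  rw [hs] at h6
  have h8 : (q : ℤ) * (q * s ^ 2) = q * 1 := by linear_combination h6
  have h9 := mul_left_cancel₀ (by positivity : (q : ℤ) ≠ 0) h8
  have h10 : (q : ℤ) ∣ 1 := ⟨s ^ 2, h9.symm⟩
  have := Int.le_of_dvd one_pos h10
  omega

theorem tauC_norm {p q : ℕ} [NeZero (p * q)] (h : Pair p q) (m : ℕ) (r : ℤ)
    (hR : Rp (p * q) (tauC p q h) m r) : ∃ x y : ℤ, (m : ℤ) = q * x ^ 2 + p * y ^ 2 := by
  obtain ⟨hm, hc, hr, I, hI, hIm, hIC⟩ := hR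
  have h1 := mkI_mul I (Iq p q) hI (inv_Iq h) (hI.mul (inv_Iq h))
  have h2 : mkI (I * Iq p q) (hI.mul (inv_Iq h)) = 1 := by
    rw [h1, hIC]
    have := tauC_sq h
    rw [pow_two] at this
    exact this
  obtain ⟨g, hg0, hg⟩ := R5_principal _ _ h2
  have h3 : (I * Iq p q) * (I * Iq p q).map (starRingEnd (Od (p * q))) =
      Ideal.span {(((m : ℤ) * q : ℤ) : Od (p * q))} := by
    have e1 : (Iq p q).map (starRingEnd (Od (p * q))) = Iq p q := R5_amb_conj _
    rw [Ideal.map_mul, e1]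
    calc (I * Iq p q) * (I.map (starRingEnd (Od (p * q))) * Iq p q)
        = (I * I.map (starRingEnd (Od (p * q)))) * (Iq p q * Iq p q) := by ring
      _ = Ideal.span {((m : ℤ) : Od (p * q))} * Ideal.span {((q : ℤ) : Od (p * q))} := by
          rw [R5_conj_mul hc hr hIm, Iq_mul_Iq h]
      _ = _ := by rw [Ideal.span_singleton_mul_span_singleton, Int.cast_mul]
  rw [hg] at h3
  have h4 := R5_norm (by positivity) h3
  have h5 : g ∈ Iq p q := by
    have : g ∈ I * Iq p q := by rw [hg]; exact Ideal.mem_span_singleton_self g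
    exact Ideal.mul_le_right this
  obtain ⟨x, hx⟩ := mem_Iq.1 h5
  rw [od_norm, hx] at h4
  have hq0 : (q : ℤ) ≠ 0 := by exact_mod_cast h.2.1.ne_zero
  refine ⟨x, g.im, mul_left_cancel₀ hq0 ?_⟩
  push_cast at h4
  linear_combination -h4

theorem tauC_sqrt {p q : ℕ} [NeZero (p * q)] (h : Pair p q) (C : ClassGroup (Od (p * q)))
    (m : ℕ) (r : ℤ) (hR : Rp (p * q) C m r) (hC : C ^ 2 = tauC p q h) :
    ∃ X Y : ℤ, IsCoprime X Y ∧ (m : ℤ) ^ 2 = p * X ^ 2 + q * Y ^ 2 := by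
  obtain ⟨hm, hc, hr, I, hI, hIm, hIC⟩ := hR
  have h1 := mkI_mul (I * I) (Ip p q) (hI.mul hI) (inv_Ip h) ((hI.mul hI).mul (inv_Ip h))
  have h2 : mkI (I * I * Ip p q) ((hI.mul hI).mul (inv_Ip h)) = 1 := by
    rw [h1, mkI_mul I I hI hI (hI.mul hI), hIC, ← pow_two, hC, mkI_Ip h, ← pow_two, tauC_sq h]
  obtain ⟨g, hg0, hg⟩ := R5_principal _ _ h2
  have h3 : (I * I * Ip p q) * (I * I * Ip p q).map (starRingEnd (Od (p * q))) =
      Ideal.span {(((m : ℤ) * m * p : ℤ) : Od (p * q))} := by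
    have e1 : (Ip p q).map (starRingEnd (Od (p * q))) = Ip p q := R5_amb_conj _
    rw [Ideal.map_mul, Ideal.map_mul, e1]
    calc (I * I * Ip p q) * (I.map (starRingEnd (Od (p * q))) *
          I.map (starRingEnd (Od (p * q))) * Ip p q)
        = (I * I.map (starRingEnd (Od (p * q)))) * (I * I.map (starRingEnd (Od (p * q)))) *
          (Ip p q * Ip p q) := by ring
      _ = Ideal.span {((m : ℤ) : Od (p * q))} * Ideal.span {((m : ℤ) : Od (p * q))} *
          Ideal.span {((p : ℤ) : Od (p * q))} := by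
          rw [R5_conj_mul hc hr hIm, Ip_mul_Ip h]
      _ = _ := by
          rw [Ideal.span_singleton_mul_span_singleton, Ideal.span_singleton_mul_span_singleton,
            Int.cast_mul, Int.cast_mul]
  rw [hg] at h3
  have h4 := R5_norm (by positivity) h3
  have hgm : g ∈ I * I * Ip p q := by rw [hg]; exact Ideal.mem_span_singleton_self g
  have h5 : g ∈ Ip p q := Ideal.mul_le_right hgm
  obtain ⟨x, hx⟩ := mem_Ip.1 h5
  rw [od_norm, hx] at h4
  have hp0 : (p : ℤ) ≠ 0 := by exact_mod_cast h.1.ne_zero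
  push_cast at h4
  have h6 : (m : ℤ) ^ 2 = p * x ^ 2 + q * g.im ^ 2 := by
    apply mul_left_cancel₀ hp0
    linear_combination -h4
  refine ⟨x, g.im, ?_, h6⟩
  -- coprimality
  rw [Int.isCoprime_iff_gcd_eq_one]
  by_contra hne
  obtain ⟨l, hl, hld⟩ := Nat.exists_prime_and_dvd hne
  have hlZ : Prime (l : ℤ) := Nat.prime_iff_prime_int.1 hl
  have hlx : (l : ℤ) ∣ x := (Int.natCast_dvd_natCast.2 hld).trans (Int.gcd_dvd_left x g.im)
  have hly : (l : ℤ) ∣ g.im := (Int.natCast_dvd_natCast.2 hld).trans (Int.gcd_dvd_right x g.im)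
  have hlm : (l : ℤ) ∣ m := by
    refine hlZ.dvd_of_dvd_pow (n := 2) ?_
    rw [h6]
    exact dvd_add ((hlx.pow two_ne_zero).mul_left _) ((hly.pow two_ne_zero).mul_left _)
  -- every element of the ideal is divisible by l
  have hle : ∀ z ∈ I * I * Ip p q, (l : ℤ) ∣ z.im := by
    intro z hz
    rw [hg, Ideal.mem_span_singleton] at hz
    obtain ⟨w, rfl⟩ := hz
    rw [Zsqrtd.im_mul, hx]
    exact dvd_add ((hlx.mul_left _).mul_right _) (hly.mul_right _)
  have he : (⟨-r, 1⟩ : Od (p * q)) ∈ I := by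
    rw [hIm]
    simp
  have h7 : (⟨-r, 1⟩ : Od (p * q)) * ⟨-r, 1⟩ * ((p : ℤ) : Od (p * q)) ∈ I * I * Ip p q := by
    refine Ideal.mul_mem_mul (Ideal.mul_mem_mul he he) ?_
    rw [mem_Ip]
    simp
  have h8 := hle _ h7
  have h9 : ((⟨-r, 1⟩ : Od (p * q)) * ⟨-r, 1⟩ * ((p : ℤ) : Od (p * q))).im = -(2 * r * p) := by
    simp only [Zsqrtd.re_mul, Zsqrtd.im_mul, Zsqrtd.re_intCast, Zsqrtd.im_intCast]
    ring
  rw [h9, dvd_neg] at h8
  have hcop : IsCoprime (l : ℤ) (2 * r * p) := by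
    have e1 : IsCoprime (m : ℤ) (2 * r) := R5_cop_r hc hr
    have e2 : IsCoprime (m : ℤ) (p : ℤ) := by
      have e3 := Nat.isCoprime_iff_coprime.2 hc
      push_cast at e3
      exact e3.of_mul_right_right.of_mul_right_left
    exact (e1.mul_right e2).of_isCoprime_of_dvd_left hlm
  have h10 : IsUnit (l : ℤ) := hcop.isUnit_of_dvd' (dvd_refl _) h8
  exact hlZ.not_unit h10

end Pool.Agent.PQ
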