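import Pool.Agent.Lib_helper51.PQ.R5a
import Pool.Agent.Lib_helper61.PQ.R4

/-! # Project PQ, block R5b: a class of square one is trivial or the ambiguous class -/

set_option autoImplicit false

namespace Pool.Agent.PQ

open Finset Pool.Agent.TM32

theorem R5b_sq {u v w : ℤ} (hu : 0 ≤ u) (hv : 0 ≤ v) (h : u * v = w ^ 2) (hc : IsCoprime u v) :
    ∃ s t : ℤ, u = s ^ 2 ∧ v = t ^ 2 ∧ w = s * t := by
  have h1 : ∃ s : ℤ, u = s ^ 2 := by
    obtain ⟨a, ha⟩ := Int.sq_of_isCoprime hc h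
    rcases ha with ha | ha
    · exact ⟨a, ha⟩
    · refine ⟨0, ?_⟩
      nlinarith [sq_nonneg a]
  have h2 : ∃ t : ℤ, v = t ^ 2 := by
    obtain ⟨a, ha⟩ := Int.sq_of_isCoprime hc.symm (by rw [mul_comm]; exact h)
    rcases ha with ha | ha
    · exact ⟨a, ha⟩
    · refine ⟨0, ?_⟩
      nlinarith [sq_nonneg a]
  obtain ⟨s, hs⟩ := h1
  obtain ⟨t, ht⟩ := h2
  have h3 : (s * t) ^ 2 = w ^ 2 := by rw [mul_pow, ← hs, ← ht, h]
  rcases sq_eq_sq_iff_eq_or_eq_neg.1 h3 with h4 | h4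
  · exact ⟨s, t, hs, ht, h4.symm⟩
  · exact ⟨s, -t, hs, by rw [neg_sq]; exact ht, by linarith⟩

theorem R5b_even {m x y n : ℤ} (hn : n % 8 = 3) (hm : m % 2 = 1) (e : m ^ 2 = x ^ 2 + n * y ^ 2) :
    y % 2 = 0 ∧ x % 2 = 1 := by
  obtain ⟨a, ha⟩ : ∃ a, m = 2 * a + 1 := ⟨m / 2, by omega⟩
  obtain ⟨d, hd⟩ : ∃ d, n = 8 * d + 3 := ⟨n / 8, by omega⟩
  obtain ⟨a', ha'⟩ := Int.even_mul_succ_self a
  rcases Int.even_or_odd' y with ⟨b, hb | hb⟩ <;> rcases Int.even_or_odd' x with ⟨c, hc | hc⟩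
  · exfalso
    subst ha hd hb hc
    ring_nf at e
    omega
  · constructor <;> omega
  · exfalso
    subst ha hd hb hc
    ring_nf at e
    omega
  · exfalso
    obtain ⟨b', hb'⟩ := Int.even_mul_succ_self b
    obtain ⟨c', hc'⟩ := Int.even_mul_succ_self c
    subst ha hd hb hc
    ring_nf at e ha' hb' hc'
    omega

theorem R5b_cases {p q : ℕ} (h : Pair p q) {m x y : ℤ} (hm : 0 < m) (hm2 : m % 2 = 1)
    (hmn : IsCoprime m ((p : ℤ) * q)) (hxy : IsCoprime x y)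
    (e : m ^ 2 = x ^ 2 + (p : ℤ) * q * y ^ 2) :
    ∃ s t ε : ℤ, (ε = 1 ∨ ε = -1) ∧
      ((m = s ^ 2 + p * q * t ^ 2 ∧ x = ε * (s ^ 2 - p * q * t ^ 2) ∧ y = ε * (2 * s * t)) ∨
        (m = p * s ^ 2 + q * t ^ 2 ∧ x = ε * (p * s ^ 2 - q * t ^ 2) ∧ y = ε * (2 * s * t))) := by
  obtain ⟨hp, hq, hp1, hq1, hpq⟩ := h
  have hn : ((p : ℤ) * q) % 8 = 3 := by
    have : (((p * q : ℕ) : ℤ)) % 8 = 3 := by exact_mod_cast congrArg (Nat.cast : ℕ → ℤ) hpq
    rw [← this]; push_cast; rfl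
  obtain ⟨hy, hx⟩ := R5b_even hn hm2 e
  obtain ⟨w, hw⟩ : ∃ w, y = 2 * w := ⟨y / 2, by omega⟩
  obtain ⟨u, hu⟩ : ∃ u, m - x = 2 * u := ⟨(m - x) / 2, by omega⟩
  have hpZ : Prime (p : ℤ) := Nat.prime_iff_prime_int.1 hp
  have hqZ : Prime (q : ℤ) := Nat.prime_iff_prime_int.1 hq
  have hp0 : (0 : ℤ) < p := by exact_mod_cast hp.pos
  have hq0 : (0 : ℤ) < q := by exact_mod_cast hq.pos
  have hxm : |x| ≤ m := by
    apply abs_le_of_sq_le_sq _ hm.le
    rw [e]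
    nlinarith [mul_nonneg (mul_nonneg hp0.le hq0.le) (sq_nonneg y)]
  rw [abs_le] at hxm
  obtain ⟨v, hv⟩ : ∃ v, v = m - u := ⟨_, rfl⟩
  have hu0 : 0 ≤ u := by omega
  have hv0 : 0 ≤ v := by omega
  have huv : u * v = p * q * w ^ 2 := by
    have e1 : x = m - 2 * u := by linarith
    rw [hv]
    rw [e1, hw] at e
    linarith
  have hcop : ∀ l : ℤ, Prime l → l ∣ u → l ∣ v → False := by
    intro l hl h1 h2
    have h3 : l ∣ m := by
      have : m = u + v := by rw [hv]; ring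
      rw [this]; exact dvd_add h1 h2
    have h4 : l ∣ x := by
      have : x = v - u := by rw [hv]; linarith
      rw [this]; exact dvd_sub h2 h1
    have h5 : l ∣ (p : ℤ) * q * y ^ 2 := by
      have : (p : ℤ) * q * y ^ 2 = m ^ 2 - x ^ 2 := by linarith
      rw [this]
      exact dvd_sub (dvd_pow h3 two_ne_zero) (dvd_pow h4 two_ne_zero)
    rcases hl.dvd_or_dvd h5 with h6 | h6
    · exact hl.not_isUnit (hmn.isUnit_of_dvd' h3 h6)
    · exact hl.not_isUnit (hxy.isUnit_of_dvd' h4 (hl.dvd_of_dvd_pow h6))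
  have hcuv : IsCoprime u v := by
    rw [Int.isCoprime_iff_gcd_eq_one]
    by_contra hne
    obtain ⟨l, hl, hld⟩ := Nat.exists_prime_and_dvd hne
    exact hcop l (Nat.prime_iff_prime_int.1 hl)
      ((Int.natCast_dvd_natCast.2 hld).trans (Int.gcd_dvd_left u v))
      ((Int.natCast_dvd_natCast.2 hld).trans (Int.gcd_dvd_right u v))
  have hpuv : (p : ℤ) ∣ u * v := ⟨q * w ^ 2, by rw [huv]; ring⟩
  have hquv : (q : ℤ) ∣ u * v := ⟨p * w ^ 2, by rw [huv]; ring⟩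
  have hpqc : IsCoprime (p : ℤ) (q : ℤ) := Pair.coprime ⟨hp, hq, hp1, hq1, hpq⟩
  rcases hpZ.dvd_or_dvd hpuv with h1 | h1 <;> rcases hqZ.dvd_or_dvd hquv with h2 | h2
  · -- p q | u
    obtain ⟨u', hu'⟩ := hpqc.mul_dvd h1 h2
    have h3 : u' * v = w ^ 2 := by
      have : ((p : ℤ) * q) * (u' * v) = (p * q) * w ^ 2 := by rw [← huv, hu']; ring
      exact mul_left_cancel₀ (mul_pos hp0 hq0).ne' this
    have h4 : 0 ≤ u' := by
      by_contra hneg
      push Not at hneg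
      nlinarith [mul_pos hp0 hq0]
    obtain ⟨t, s, ht, hs, hts⟩ := R5b_sq h4 hv0 h3
      (hcuv.of_isCoprime_of_dvd_left ⟨(p : ℤ) * q, by rw [hu']; ring⟩)
    refine ⟨s, t, 1, Or.inl rfl, Or.inl ⟨?_, ?_, ?_⟩⟩
    · rw [← hs, ← ht, ← hu', hv]; ring
    · rw [← hs, ← ht, ← hu', hv]; linarith
    · rw [hw, hts]; ring
  · -- p | u, q | v
    obtain ⟨u', hu'⟩ := h1
    obtain ⟨v', hv'⟩ := h2
    have h3 : u' * v' = w ^ 2 := by
      have : ((p : ℤ) * q) * (u' * v') = (p * q) * w ^ 2 := by rw [← huv, hu', hv']; ring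
      exact mul_left_cancel₀ (mul_pos hp0 hq0).ne' this
    have h4 : 0 ≤ u' := by
      by_contra hneg
      push Not at hneg
      nlinarith
    have h5 : 0 ≤ v' := by
      by_contra hneg
      push Not at hneg
      nlinarith
    obtain ⟨s, t, hs, ht, hst⟩ := R5b_sq h4 h5 h3
      ((hcuv.of_isCoprime_of_dvd_left ⟨(p : ℤ), by rw [hu']; ring⟩).of_isCoprime_of_dvd_right
        ⟨(q : ℤ), by rw [hv']; ring⟩)
    refine ⟨s, -t, -1, Or.inr rfl, Or.inr ⟨?_, ?_, ?_⟩⟩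
    · rw [neg_sq, ← hs, ← ht, ← hu', ← hv', hv]; ring
    · rw [neg_sq, ← hs, ← ht, ← hu', ← hv', hv]; linarith
    · rw [hw, hst]; ring
  · -- p | v, q | u
    obtain ⟨v', hv'⟩ := h1
    obtain ⟨u', hu'⟩ := h2
    have h3 : v' * u' = w ^ 2 := by
      have : ((p : ℤ) * q) * (v' * u') = (p * q) * w ^ 2 := by rw [← huv, hu', hv']; ring
      exact mul_left_cancel₀ (mul_pos hp0 hq0).ne' this
    have h4 : 0 ≤ u' := by
      by_contra hneg
      push Not at hneg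
      nlinarith
    have h5 : 0 ≤ v' := by
      by_contra hneg
      push Not at hneg
      nlinarith
    obtain ⟨s, t, hs, ht, hst⟩ := R5b_sq h5 h4 h3
      ((hcuv.symm.of_isCoprime_of_dvd_left ⟨(p : ℤ), by rw [hv']; ring⟩).of_isCoprime_of_dvd_right
        ⟨(q : ℤ), by rw [hu']; ring⟩)
    refine ⟨s, t, 1, Or.inl rfl, Or.inr ⟨?_, ?_, ?_⟩⟩
    · rw [← hs, ← ht, ← hu', ← hv', hv]; ring
    · rw [← hs, ← ht, ← hu', ← hv', hv]; linarith
    · rw [hw, hst]; ring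
  · -- p q | v
    obtain ⟨v', hv'⟩ := hpqc.mul_dvd h1 h2
    have h3 : v' * u = w ^ 2 := by
      have : ((p : ℤ) * q) * (v' * u) = (p * q) * w ^ 2 := by rw [← huv, hv']; ring
      exact mul_left_cancel₀ (mul_pos hp0 hq0).ne' this
    have h4 : 0 ≤ v' := by
      by_contra hneg
      push Not at hneg
      nlinarith [mul_pos hp0 hq0]
    obtain ⟨t, s, ht, hs, hts⟩ := R5b_sq h4 hu0 h3
      (hcuv.symm.of_isCoprime_of_dvd_left ⟨(p : ℤ) * q, by rw [hv']; ring⟩)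
    refine ⟨s, -t, -1, Or.inr rfl, Or.inl ⟨?_, ?_, ?_⟩⟩
    · rw [neg_sq, ← hs, ← ht, ← hv', hv]; ring
    · rw [neg_sq, ← hs, ← ht, ← hv', hv]; linarith
    · rw [hw, hts]; ring

theorem R5b_gen {n : ℕ} [NeZero n] {K : Ideal (Od n)} {N : ℤ}
    (hK : K * K.map (starRingEnd (Od n)) = Ideal.span {((N : ℤ) : Od n)}) {b : Od n} (hb : b ∈ K)
    (hN : b.norm = N) (hN0 : N ≠ 0) : K = Ideal.span {b} := by
  have h2 : ((N : ℤ) : Od n) = b * starRingEnd (Od n) b := by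
    rw [← hN]; exact Zsqrtd.norm_eq_mul_conj b
  apply le_antisymm
  · intro z hz
    have h1 : z * starRingEnd (Od n) b ∈ K * K.map (starRingEnd (Od n)) :=
      Ideal.mul_mem_mul hz (Ideal.mem_map_of_mem _ hb)
    rw [hK, Ideal.mem_span_singleton] at h1
    obtain ⟨w, hw⟩ := h1
    have h3 : starRingEnd (Od n) b ≠ 0 := by
      intro h0
      rw [h0, mul_zero] at h2
      exact R5_cast_ne hN0 h2
    rw [Ideal.mem_span_singleton]
    refine ⟨w, mul_right_cancel₀ h3 ?_⟩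
    rw [hw, h2]; ring
  · rwa [Ideal.span_singleton_le_iff_mem]

/-- `m ∣ a + r b` from `m² ∣ ε (a² - n b² + 2 r' a b)` -/
theorem R5b_root {m r r' n a b ε d : ℤ} (h1 : m ∣ r' - r)
    (h2 : m ^ 2 ∣ r' ^ 2 + n) (h3 : m ^ 2 ∣ d) (h4 : ε * d = a ^ 2 - n * b ^ 2 + 2 * r' * (a * b)) :
    m ∣ a + r * b := by
  have h5 : m ^ 2 ∣ (a + r' * b) ^ 2 := by
    have : (a + r' * b) ^ 2 = ε * d + (r' ^ 2 + n) * b ^ 2 := by rw [h4]; ring
    rw [this]
    exact dvd_add (h3.mul_left _) (h2.mul_right _)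
  have h6 : m ∣ a + r' * b := (Int.pow_dvd_pow_iff two_ne_zero).1 h5
  have h7 : a + r * b = (a + r' * b) - (r' - r) * b := by ring
  rw [h7]
  exact dvd_sub h6 (h1.mul_right _)

theorem tau_two_aux (p q : ℕ) [NeZero (p * q)] (h : Pair p q) (C : ClassGroup (Od (p * q)))
    (hC : C ^ 2 = 1) (m : ℕ) (r : ℤ) (hR : Rp (p * q) C m r) : C = 1 ∨ C = tauC p q h := by
  obtain ⟨x, y, hxy, hm2, r', hr1, hr2, hr3⟩ := rp_sq_one (p * q) C m r hR hC
  obtain ⟨hm, hc, hr, I, hI, hIm, hIC⟩ := hR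
  have hp0 : (0 : ℤ) < p := by exact_mod_cast h.1.pos
  have hmZ : (0 : ℤ) < m := by exact_mod_cast hm
  have hc' : IsCoprime (m : ℤ) (2 * ((p : ℤ) * q)) := by
    have := Nat.isCoprime_iff_coprime.2 hc
    push_cast at this
    exact this
  have hodd : (m : ℤ) % 2 = 1 := by
    have h1 : IsCoprime (m : ℤ) 2 := hc'.of_mul_right_left
    have h2 : ¬ (2 : ℤ) ∣ m := by
      intro h3
      exact Int.prime_two.not_isUnit (h1.isUnit_of_dvd' h3 dvd_rfl)
    omega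
  have hm2' : (m : ℤ) ^ 2 = x ^ 2 + (p : ℤ) * q * y ^ 2 := by
    rw [hm2]; push_cast; ring
  have hr2' : (m : ℤ) ^ 2 ∣ r' ^ 2 + (p : ℤ) * q := by
    have := hr2
    push_cast at this
    exact this
  obtain ⟨s, t, ε, hε, hcase | hcase⟩ := R5b_cases h hmZ hodd hc'.of_mul_right_right hxy hm2'
  · left
    obtain ⟨e1, e2, e3⟩ := hcase
    have hεε : ε * ε = 1 := by rcases hε with h | h <;> rw [h] <;> norm_num
    have hd : (m : ℤ) ∣ s + r * t := by
      refine R5b_root (d := x + r' * y) (ε := ε) hr1 hr2' hr3 ?_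
      rw [e2, e3]
      linear_combination (s ^ 2 - p * q * t ^ 2 + 2 * r' * (s * t)) * hεε
    have hb : (⟨s, t⟩ : Od (p * q)) ∈ I := by
      rw [hIm]; exact hd
    have hN : (⟨s, t⟩ : Od (p * q)).norm = m := by
      rw [od_norm, e1]
      push_cast
      ring
    have hK := R5b_gen (R5_conj_mul hc hr hIm) hb hN hmZ.ne'
    have hb0 : (⟨s, t⟩ : Od (p * q)) ≠ 0 := by
      intro h0
      rw [h0, Zsqrtd.norm_zero] at hN
      exact hmZ.ne hN
    rw [← hIC, R5_mkI_congr hK hI (inv_span _ hb0), mkI_span _ hb0]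
  · right
    obtain ⟨e1, e2, e3⟩ := hcase
    have hεε : ε * ε = 1 := by rcases hε with h | h <;> rw [h] <;> norm_num
    have hd : (m : ℤ) ∣ p * s + r * t := by
      refine R5b_root (d := p * (x + r' * y)) (ε := ε) hr1 hr2' (hr3.mul_left _) ?_
      rw [e2, e3]
      linear_combination (p * (p * s ^ 2 - q * t ^ 2 + 2 * r' * (s * t))) * hεε
    have hbI : (⟨p * s, t⟩ : Od (p * q)) ∈ I := by
      rw [hIm]; exact hd
    have hbP : (⟨p * s, t⟩ : Od (p * q)) ∈ Ip p q := by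
      rw [mem_Ip]; exact dvd_mul_right _ _
    have hcopI : I ⊔ Ip p q = ⊤ := by
      rw [Ideal.eq_top_iff_one]
      obtain ⟨a, b, hab⟩ := hc'.of_mul_right_right.of_mul_right_left
      have h1 : (1 : Od (p * q)) = ((a * m : ℤ) : Od (p * q)) + ((b * p : ℤ) : Od (p * q)) := by
        rw [← Int.cast_add, hab, Int.cast_one]
      rw [h1]
      refine Ideal.add_mem _ (Ideal.mem_sup_left ?_) (Ideal.mem_sup_right ?_)
      · rw [hIm]; simp
      · rw [mem_Ip]; simp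
    have hb : (⟨p * s, t⟩ : Od (p * q)) ∈ I * Ip p q := by
      rw [Ideal.mul_eq_inf_of_isCoprime (Ideal.isCoprime_iff_sup_eq.2 hcopI)]
      exact ⟨hbI, hbP⟩
    have hN : (⟨p * s, t⟩ : Od (p * q)).norm = m * p := by
      rw [od_norm, e1]
      push_cast
      ring
    have hKK : (I * Ip p q) * (I * Ip p q).map (starRingEnd (Od (p * q))) =
        Ideal.span {(((m : ℤ) * p : ℤ) : Od (p * q))} := by
      have e1 : (Ip p q).map (starRingEnd (Od (p * q))) = Ip p q := R5_amb_conj _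
      rw [Ideal.map_mul, e1, mul_mul_mul_comm, R5_conj_mul hc hr hIm, Ip_mul_Ip h,
        Ideal.span_singleton_mul_span_singleton, Int.cast_mul]
    have hK := R5b_gen hKK hb hN (mul_pos hmZ hp0).ne'
    have hb0 : (⟨p * s, t⟩ : Od (p * q)) ≠ 0 := by
      intro h0
      rw [h0, Zsqrtd.norm_zero] at hN
      exact (mul_pos hmZ hp0).ne hN
    have h1 := mkI_mul I (Ip p q) hI (inv_Ip h) (hI.mul (inv_Ip h))
    rw [R5_mkI_congr hK (hI.mul (inv_Ip h)) (inv_span _ hb0), mkI_span _ hb0, hIC, mkI_Ip h] at h1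
    have h2 := tauC_sq h
    rw [pow_two] at h2
    exact mul_right_cancel (h1.symm.trans h2.symm)

end Pool.Agent.PQ
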