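import Pool.Agent.Lib_helper60.PQ.Defs

/-! # Project PQ, block R5, part 0: ambiguous ideals `{z : d ∣ re z}`, `d ∣ n`, and principal classes -/

set_option autoImplicit false

namespace Pool.Agent.PQ

open Finset Pool.Agent.TM32

section
variable {R : Type} [CommRing R] [IsDomain R]

theorem R5_principal (K : Ideal R) (hK : TM32.Inv K) (h : mkI K hK = 1) :
    ∃ g : R, g ≠ 0 ∧ K = Ideal.span {g} := by
  have h1 : mkI (Ideal.span {(1 : R)}) (inv_span 1 one_ne_zero) = 1 :=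
    mkI_span 1 one_ne_zero _
  rw [← h1, mkI_eq_iff] at h
  obtain ⟨x, y, hx, hy, hxy⟩ := h
  have hy1 : y ∈ Ideal.span {x} * K := by
    rw [hxy, Ideal.span_singleton_mul_span_singleton, mul_one]
    exact Ideal.mem_span_singleton_self y
  obtain ⟨z, hz, hzy⟩ := Ideal.mem_span_singleton_mul.1 hy1
  refine ⟨z, ?_, ?_⟩
  · rintro rfl
    rw [mul_zero] at hzy
    exact hy hzy.symm
  · apply span_mul_cancel x hx
    rw [hxy, Ideal.span_singleton_mul_span_singleton, Ideal.span_singleton_mul_span_singleton,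
      mul_one, hzy]

theorem R5_mkI_congr {I J : Ideal R} (h : I = J) (hI : TM32.Inv I) (hJ : TM32.Inv J) :
    mkI I hI = mkI J hJ := by
  subst h
  rfl

end

/-- the ambiguous ideal `{z : d ∣ re z}` of `ℤ[√-n]`, `d ∣ n` -/
def amb (n : ℕ) (d : ℤ) (hd : d ∣ (n : ℤ)) : Ideal (Od n) where
  carrier := {z | d ∣ z.re}
  add_mem' := by
    intro a b ha hb
    have ha' : d ∣ a.re := ha
    have hb' : d ∣ b.re := hb
    change d ∣ (a + b).re
    rw [Zsqrtd.re_add]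
    exact dvd_add ha' hb'
  zero_mem' := by
    change d ∣ (0 : Od n).re
    simp
  smul_mem' := by
    intro w z hz
    have hz' : d ∣ z.re := hz
    change d ∣ (w * z).re
    rw [Zsqrtd.re_mul]
    refine dvd_add (hz'.mul_left _) ?_
    obtain ⟨t, ht⟩ := hd
    exact ⟨-(t * w.im * z.im), by linear_combination (-(w.im * z.im)) * ht⟩

theorem mem_amb {n : ℕ} {d : ℤ} {hd : d ∣ (n : ℤ)} {z : Od n} : z ∈ amb n d hd ↔ d ∣ z.re := Iff.rfl

theorem dvd_left (p q : ℕ) : (p : ℤ) ∣ ((p * q : ℕ) : ℤ) := ⟨q, by push_cast; ring⟩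

theorem dvd_right (p q : ℕ) : (q : ℤ) ∣ ((p * q : ℕ) : ℤ) := ⟨p, by push_cast; ring⟩

/-- `𝔭 = {z : p ∣ re z}` -/
def Ip (p q : ℕ) : Ideal (Od (p * q)) := amb (p * q) p (dvd_left p q)

/-- `𝔮 = {z : q ∣ re z}` -/
def Iq (p q : ℕ) : Ideal (Od (p * q)) := amb (p * q) q (dvd_right p q)

theorem mem_Ip {p q : ℕ} {z : Od (p * q)} : z ∈ Ip p q ↔ (p : ℤ) ∣ z.re := Iff.rfl

theorem mem_Iq {p q : ℕ} {z : Od (p * q)} : z ∈ Iq p q ↔ (q : ℤ) ∣ z.re := Iff.rfl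

theorem Pair.coprime {p q : ℕ} (h : Pair p q) : IsCoprime (p : ℤ) (q : ℤ) := by
  obtain ⟨hp, hq, h1, h2, _⟩ := h
  rw [Nat.isCoprime_iff_coprime, Nat.coprime_primes hp hq]
  rintro rfl
  omega

theorem Ip_mul_Iq {p q : ℕ} (h : Pair p q) : Ip p q * Iq p q = Ideal.span {(Zsqrtd.sqrtd : Od (p * q))} := by
  apply le_antisymm
  · rw [Ideal.mul_le]
    intro z hz w hw
    obtain ⟨a, ha⟩ := mem_Ip.1 hz
    obtain ⟨b, hb⟩ := mem_Iq.1 hw
    rw [Ideal.mem_span_singleton]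
    refine ⟨⟨(z * w).im, z.im * w.im - a * b⟩, ?_⟩
    apply Zsqrtd.ext
    · simp [ha, hb]
      ring
    · simp
  · rw [Ideal.span_singleton_le_iff_mem]
    obtain ⟨a, b, hab⟩ := h.coprime
    have h1 : ((p : ℤ) : Od (p * q)) * (Zsqrtd.sqrtd : Od (p * q)) ∈ Ip p q * Iq p q := by
      refine Ideal.mul_mem_mul ?_ ?_
      · rw [mem_Ip]; simp
      · rw [mem_Iq]; simp
    have h2 : (Zsqrtd.sqrtd : Od (p * q)) * ((q : ℤ) : Od (p * q)) ∈ Ip p q * Iq p q := by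
      refine Ideal.mul_mem_mul ?_ ?_
      · rw [mem_Ip]; simp
      · rw [mem_Iq]; simp
    have h3 : (Zsqrtd.sqrtd : Od (p * q)) = ((a : ℤ) : Od (p * q)) * (((p : ℤ) : Od (p * q)) *
        (Zsqrtd.sqrtd : Od (p * q))) + ((b : ℤ) : Od (p * q)) *
        ((Zsqrtd.sqrtd : Od (p * q)) * ((q : ℤ) : Od (p * q))) := by
      have h4 : ((a : ℤ) : Od (p * q)) * ((p : ℤ) : Od (p * q)) +
          ((b : ℤ) : Od (p * q)) * ((q : ℤ) : Od (p * q)) = 1 := by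
        rw [← Int.cast_mul, ← Int.cast_mul, ← Int.cast_add, hab, Int.cast_one]
      linear_combination -(Zsqrtd.sqrtd : Od (p * q)) * h4
    rw [h3]
    exact Ideal.add_mem _ (Ideal.mul_mem_left _ _ h1) (Ideal.mul_mem_left _ _ h2)

theorem Iq_mul_Iq {p q : ℕ} (h : Pair p q) : Iq p q * Iq p q = Ideal.span {((q : ℤ) : Od (p * q))} := by
  apply le_antisymm
  · rw [Ideal.mul_le]
    intro z hz w hw
    obtain ⟨a, ha⟩ := mem_Iq.1 hz
    obtain ⟨b, hb⟩ := mem_Iq.1 hw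
    rw [Ideal.mem_span_singleton]
    refine ⟨⟨q * a * b - p * z.im * w.im, a * w.im + z.im * b⟩, ?_⟩
    apply Zsqrtd.ext
    · simp [ha, hb]
      ring
    · simp [ha, hb]
      ring
  · rw [Ideal.span_singleton_le_iff_mem]
    obtain ⟨a, b, hab⟩ := h.coprime
    have h1 : ((q : ℤ) : Od (p * q)) * ((q : ℤ) : Od (p * q)) ∈ Iq p q * Iq p q := by
      refine Ideal.mul_mem_mul ?_ ?_
      · rw [mem_Iq]; simp
      · rw [mem_Iq]; simp
    have h2 : (Zsqrtd.sqrtd : Od (p * q)) * (Zsqrtd.sqrtd : Od (p * q)) ∈ Iq p q * Iq p q := by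
      refine Ideal.mul_mem_mul ?_ ?_
      · rw [mem_Iq]; simp
      · rw [mem_Iq]; simp
    have h5 : (Zsqrtd.sqrtd : Od (p * q)) * (Zsqrtd.sqrtd : Od (p * q)) =
        -(((p : ℤ) : Od (p * q)) * ((q : ℤ) : Od (p * q))) := by
      apply Zsqrtd.ext
      · simp
      · simp
    have h3 : ((q : ℤ) : Od (p * q)) = ((b : ℤ) : Od (p * q)) *
        (((q : ℤ) : Od (p * q)) * ((q : ℤ) : Od (p * q))) + (-((a : ℤ) : Od (p * q))) *
        ((Zsqrtd.sqrtd : Od (p * q)) * (Zsqrtd.sqrtd : Od (p * q))) := by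
      have h4 : ((a : ℤ) : Od (p * q)) * ((p : ℤ) : Od (p * q)) +
          ((b : ℤ) : Od (p * q)) * ((q : ℤ) : Od (p * q)) = 1 := by
        rw [← Int.cast_mul, ← Int.cast_mul, ← Int.cast_add, hab, Int.cast_one]
      rw [h5]
      linear_combination -((q : ℤ) : Od (p * q)) * h4
    rw [h3]
    exact Ideal.add_mem _ (Ideal.mul_mem_left _ _ h1) (Ideal.mul_mem_left _ _ h2)

theorem R5_cast_ne {n : ℕ} {t : ℤ} (ht : t ≠ 0) : (t : Od n) ≠ 0 := by
  intro h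
  have := congrArg Zsqrtd.re h
  simp at this
  exact ht this

theorem inv_Iq {p q : ℕ} [NeZero (p * q)] (h : Pair p q) : TM32.Inv (Iq p q) :=
  ⟨Iq p q, ((q : ℤ) : Od (p * q)), R5_cast_ne (by exact_mod_cast h.2.1.ne_zero), Iq_mul_Iq h⟩

theorem sqrtd_ne (n : ℕ) : (Zsqrtd.sqrtd : Od n) ≠ 0 := by
  intro h
  have := congrArg Zsqrtd.im h
  simp at this

theorem inv_Ip {p q : ℕ} [NeZero (p * q)] (h : Pair p q) : TM32.Inv (Ip p q) :=
  ⟨Iq p q, (Zsqrtd.sqrtd : Od (p * q)), sqrtd_ne _, Ip_mul_Iq h⟩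

/-- the class of `𝔮` -/
noncomputable def tauC (p q : ℕ) [NeZero (p * q)] (h : Pair p q) : ClassGroup (Od (p * q)) :=
  mkI (Iq p q) (inv_Iq h)

theorem tauC_sq {p q : ℕ} [NeZero (p * q)] (h : Pair p q) : tauC p q h ^ 2 = 1 := by
  have h1 := mkI_mul (Iq p q) (Iq p q) (inv_Iq h) (inv_Iq h) ((inv_Iq h).mul (inv_Iq h))
  have h2 := R5_mkI_congr (Iq_mul_Iq h) ((inv_Iq h).mul (inv_Iq h))
    (inv_span _ (R5_cast_ne (by exact_mod_cast h.2.1.ne_zero)))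
  rw [mkI_span _ (R5_cast_ne (by exact_mod_cast h.2.1.ne_zero))] at h2
  unfold tauC
  rw [pow_two, ← h1, h2]

theorem mkI_Ip {p q : ℕ} [NeZero (p * q)] (h : Pair p q) : mkI (Ip p q) (inv_Ip h) = tauC p q h := by
  have h1 := mkI_mul (Ip p q) (Iq p q) (inv_Ip h) (inv_Iq h) ((inv_Ip h).mul (inv_Iq h))
  have h2 := R5_mkI_congr (Ip_mul_Iq h) ((inv_Ip h).mul (inv_Iq h)) (inv_span _ (sqrtd_ne _))
  rw [mkI_span _ (sqrtd_ne _)] at h2
  rw [h2] at h1
  have h3 := tauC_sq h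
  rw [pow_two] at h3
  have h4 : mkI (Ip p q) (inv_Ip h) * tauC p q h = tauC p q h * tauC p q h := by
    rw [h3]; exact h1.symm
  exact mul_right_cancel h4

end Pool.Agent.PQ
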